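import Pool.Agent.Helper81.PW.Defs

/-!
Project PW (MP_b8862a_ag), block PW-F: the dimensions of the representations with few boxes have density zero.
-/

set_option linter.unusedSectionVars false

namespace PW

/-- A set whose elements are determined by a code has few elements. -/
theorem cn_le94 {S : Set ℕ} {X : ℕ} {T : Type*} [DecidableEq T] (C : Finset T) (R : ℕ → T → Prop)
    (h1 : ∀ n ∈ S, 1 ≤ n → n ≤ X → ∃ t ∈ C, R n t) (h2 : ∀ n n' t, R n t → R n' t → n = n') : cn S X ≤ C.card := by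
  classical
  unfold cn
  have h3 : ∀ n ∈ (Finset.Icc 1 X).filter (· ∈ S), ∃ t ∈ C, R n t := by
    intro n hn
    rw [Finset.mem_filter, Finset.mem_Icc] at hn
    exact h1 n hn.2 hn.1.1 hn.1.2
  choose f hf1 hf2 using h3
  rw [← Finset.card_attach]
  refine Finset.card_le_card_of_injOn (fun n => f n.1 n.2) (fun n _ => hf1 n.1 n.2) ?_
  intro n _ n' _ h
  apply Subtype.ext
  refine h2 n n' (f n.1 n.2) (hf2 n.1 n.2) ?_
  have h' : f n.1 n.2 = f n'.1 n'.2 := h
  rw [h']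
  exact hf2 n'.1 n'.2

/-- the numerical part -/
theorem zero_of94 {S : Set ℕ} (A : ℕ) (h : ∀ X, cn S X ≤ A * (Nat.sqrt (4 * X) + 1)) : Zero S := by
  intro K
  refine ⟨16 * (K * A) ^ 2 + 1, fun X hX => ?_⟩
  have h1 : Nat.sqrt (4 * X) * Nat.sqrt (4 * X) ≤ 4 * X := Nat.sqrt_le (4 * X)
  have h2 : 1 ≤ Nat.sqrt (4 * X) := by
    rw [Nat.le_sqrt]
    omega
  have h3 : K * cn S X ≤ K * A * (2 * Nat.sqrt (4 * X)) := by
    calc K * cn S X ≤ K * (A * (Nat.sqrt (4 * X) + 1)) := Nat.mul_le_mul_left _ (h X)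
      _ = K * A * (Nat.sqrt (4 * X) + 1) := by ring
      _ ≤ _ := Nat.mul_le_mul_left _ (by omega)
  refine h3.trans ?_
  generalize Nat.sqrt (4 * X) = s at h1 h2 ⊢
  generalize K * A = B at hX ⊢
  by_contra hc
  push Not at hc
  have h4 : X * X < (B * (2 * s)) * (B * (2 * s)) := Nat.mul_self_lt_mul_self hc
  have h5 : (B * (2 * s)) * (B * (2 * s)) = 4 * (B ^ 2) * (s * s) := by ring
  have h6 : 4 * (B ^ 2) * (s * s) ≤ 4 * (B ^ 2) * (4 * X) := Nat.mul_le_mul_left _ h1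
  have h7 : 4 * (B ^ 2) * (4 * X) = 16 * B ^ 2 * X := by ring
  have h8 : 16 * B ^ 2 * X ≤ X * X := Nat.mul_le_mul_right _ (by omega)
  omega

theorem abs_le_sum94 {m : ℕ} (x : Fin m → ℤ) (i : Fin m) : |x i| ≤ ∑ i, |x i| :=
  Finset.single_le_sum (f := fun i => |x i|) (fun _ _ => abs_nonneg _) (Finset.mem_univ i)

/-- few entries are large -/
theorem card_le_sum94 {m : ℕ} (x : Fin m → ℤ) (s : Finset (Fin m)) (h : ∀ i ∈ s, 1 ≤ |x i|) :
    (s.card : ℤ) ≤ ∑ i, |x i| := by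
  calc (s.card : ℤ) = ∑ i ∈ s, 1 := by simp
    _ ≤ ∑ i ∈ s, |x i| := Finset.sum_le_sum h
    _ ≤ _ := Finset.sum_le_sum_of_subset_of_nonneg (Finset.subset_univ s) fun i _ _ => abs_nonneg _

/-- the codes -/
noncomputable def Cd94 (K L X : ℕ) : Finset (ℕ × ℕ × (Fin L → ℤ)) :=
  (Finset.range 3) ×ˢ (Finset.range (Nat.sqrt (4 * X) + 1)) ×ˢ (Fintype.piFinset fun _ => Finset.Icc (-(K : ℤ)) K)

theorem card_Cd94 (K L X : ℕ) : (Cd94 K L X).card = 3 * (2 * K + 1) ^ L * (Nat.sqrt (4 * X) + 1) := by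
  unfold Cd94
  rw [Finset.card_product, Finset.card_product, Finset.card_range, Finset.card_range, Fintype.card_piFinset]
  have h1 : (Finset.Icc (-(K : ℤ)) K).card = 2 * K + 1 := by
    rw [Int.card_Icc]
    omega
  rw [Finset.prod_const, h1, Finset.card_univ, Fintype.card_fin]
  ring

/-- the first entries -/
theorem zero_of_le94 {m K : ℕ} {x : Fin m → ℤ} (hs : ∑ i, |x i| < K) (hx : ∀ i j, i < j → |x j| ≤ x i) (i : Fin m)
    (hi : K ≤ (i : ℕ)) : x i = 0 := by
  by_contra h0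
  have h1 : 1 ≤ |x i| := Int.one_le_abs h0
  have h2 := card_le_sum94 x (Finset.Iic i) (by
    intro j hj
    rw [Finset.mem_Iic] at hj
    rcases hj.lt_or_eq with h | h
    · exact h1.trans ((hx j i h).trans (le_abs_self _))
    · rw [h]; exact h1)
  rw [Fin.card_Iic] at h2
  have h3 : ((i : ℕ) + 1 : ℤ) ≤ ∑ i, |x i| := by exact_mod_cast h2
  omega

/-- the middle entries -/
theorem mid_zero94 {m K : ℕ} {x : Fin m → ℤ} (hs : ∑ i, |x i| < K) (hx : ∀ i j, i < j → x j ≤ x i) (i : Fin m)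
    (hi : K ≤ (i : ℕ)) (hi' : K ≤ m - 1 - (i : ℕ)) : x i = 0 := by
  rcases lt_trichotomy (x i) 0 with h | h | h
  · exfalso
    have h2 := card_le_sum94 x (Finset.Ici i) (by
      intro j hj
      rw [Finset.mem_Ici] at hj
      have h3 : x j ≤ x i := by
        rcases hj.lt_or_eq with h | h
        · exact hx i j h
        · rw [h]
      rw [abs_of_neg (by omega)]
      omega)
    rw [Fin.card_Ici] at h2
    have := i.2
    omega
  · exact h
  · exfalso
    have h2 := card_le_sum94 x (Finset.Iic i) (by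
      intro j hj
      rw [Finset.mem_Iic] at hj
      have h3 : x i ≤ x j := by
        rcases hj.lt_or_eq with h | h
        · exact hx j i h
        · rw [h]
      rw [abs_of_pos (by omega)]
      omega)
    rw [Fin.card_Iic] at h2
    have h3 : ((i : ℕ) + 1 : ℤ) ≤ ∑ i, |x i| := by exact_mod_cast h2
    omega

/-- **Few boxes, types `B`, `C`, `D`.** -/
theorem fewD_cn94 (K X : ℕ) : cn (FewD K) X ≤ 3 * (2 * K + 1) ^ K * (Nat.sqrt (4 * X) + 1) := by
  classical
  rw [← card_Cd94 K K X]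
  refine cn_le94 (Cd94 K K X) (fun n t => ∃ x : Fin t.2.1 → ℤ, ∑ i, |x i| < K ∧ (∀ i j, i < j → |x j| ≤ x i) ∧
    n * Pd t.1 t.2.1 0 = Pd t.1 t.2.1 x ∧ Pd t.1 t.2.1 0 ≠ 0 ∧
    ∀ k : Fin K, t.2.2 k = if h : (k : ℕ) < t.2.1 then x ⟨k, h⟩ else 0) ?_ ?_
  · rintro n ⟨d, m, x, hd, hK, hm, hs, hx, hn, hP⟩ h1 h2
    refine ⟨(d, m, fun k => if h : (k : ℕ) < m then x ⟨k, h⟩ else 0), ?_, x, hs, hx, hn, hP, fun k => rfl⟩
    unfold Cd94
    rw [Finset.mem_product, Finset.mem_product, Fintype.mem_piFinset]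
    refine ⟨Finset.mem_range.2 (by change d < 3; omega), Finset.mem_range.2 ?_, fun k => ?_⟩
    · change m < _
      rw [Nat.lt_succ_iff, Nat.le_sqrt]
      calc m * m = m ^ 2 := by ring
        _ ≤ 4 * n := hm
        _ ≤ 4 * X := by omega
    · change (if h : (k : ℕ) < m then x ⟨k, h⟩ else 0) ∈ _
      rw [Finset.mem_Icc]
      split_ifs with h
      · have h3 := abs_le_sum94 x ⟨k, h⟩
        have h4 := abs_le.1 (h3.trans hs.le)
        exact h4
      · omega
  · rintro n n' ⟨d, m, y⟩ ⟨x, hs, hx, hn, hP, hy⟩ ⟨x', hs', hx', hn', hP', hy'⟩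
    dsimp only at *
    have h1 : x = x' := by
      funext i
      by_cases hi : (i : ℕ) < K
      · have e1 := hy ⟨i, hi⟩
        have e2 := hy' ⟨i, hi⟩
        rw [dif_pos i.2] at e1 e2
        rw [e1] at e2
        exact e2
      · rw [zero_of_le94 hs hx i (by omega), zero_of_le94 hs' hx' i (by omega)]
    rw [← h1, ← hn] at hn'
    have h2 := mul_right_cancel₀ hP hn'
    exact_mod_cast h2.symm

theorem fewD_zero (K : ℕ) : Zero (FewD K) := zero_of94 _ (fewD_cn94 K)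

/-- **Few boxes, type `A`.** -/
theorem fewA_cn94 (K X : ℕ) : cn (FewA K) X ≤ 3 * (2 * K + 1) ^ (K + K) * (Nat.sqrt (4 * X) + 1) := by
  classical
  rw [← card_Cd94 K (K + K) X]
  refine cn_le94 (Cd94 K (K + K) X) (fun n t => ∃ x : Fin t.2.1 → ℤ, ∑ i, |x i| < K ∧ (∀ i j, i < j → x j ≤ x i) ∧
    n * Pa t.2.1 0 = Pa t.2.1 x ∧ Pa t.2.1 0 ≠ 0 ∧
    (∀ k : Fin K, t.2.2 (Fin.castAdd K k) = if h : (k : ℕ) < t.2.1 then x ⟨k, h⟩ else 0) ∧
    ∀ k : Fin K, t.2.2 (Fin.natAdd K k) = if h : t.2.1 - 1 - (k : ℕ) < t.2.1 then x ⟨t.2.1 - 1 - (k : ℕ), h⟩ else 0) ?_ ?_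
  · rintro n ⟨m, x, hm, hs, hx, hn, hP⟩ h1 h2
    refine ⟨(0, m, Fin.append (fun k : Fin K => if h : (k : ℕ) < m then x ⟨k, h⟩ else 0)
      (fun k : Fin K => if h : m - 1 - (k : ℕ) < m then x ⟨m - 1 - (k : ℕ), h⟩ else 0)), ?_, x, hs, hx, hn, hP,
      fun k => ?_, fun k => ?_⟩
    · unfold Cd94
      rw [Finset.mem_product, Finset.mem_product, Fintype.mem_piFinset]
      refine ⟨Finset.mem_range.2 (by norm_num), Finset.mem_range.2 ?_, fun k => ?_⟩
      · change m < _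
        rw [Nat.lt_succ_iff, Nat.le_sqrt]
        calc m * m = m ^ 2 := by ring
          _ ≤ 4 * n := hm
          _ ≤ 4 * X := by omega
      · rw [Finset.mem_Icc]
        have hb : ∀ i : Fin m, -(K : ℤ) ≤ x i ∧ x i ≤ K := fun i => abs_le.1 ((abs_le_sum94 x i).trans hs.le)
        refine Fin.addCases (fun j => ?_) (fun j => ?_) k
        · simp only [Fin.append_left]
          split_ifs with h
          · exact hb _
          · omega
        · simp only [Fin.append_right]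
          split_ifs with h
          · exact hb _
          · omega
    · simp only [Fin.append_left]
    · simp only [Fin.append_right]
  · rintro n n' ⟨d, m, y⟩ ⟨x, hs, hx, hn, hP, hy, hz⟩ ⟨x', hs', hx', hn', hP', hy', hz'⟩
    dsimp only at *
    have h1 : x = x' := by
      funext i
      by_cases hi : (i : ℕ) < K
      · have e1 := hy ⟨i, hi⟩
        have e2 := hy' ⟨i, hi⟩
        rw [dif_pos i.2] at e1 e2
        rw [e1] at e2
        exact e2
      · by_cases hi' : m - 1 - (i : ℕ) < K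
        · have e1 := hz ⟨m - 1 - (i : ℕ), hi'⟩
          have e2 := hz' ⟨m - 1 - (i : ℕ), hi'⟩
          have e0 : (i : ℕ) < m := i.2
          have e3 : m - 1 - (m - 1 - (i : ℕ)) = i := by omega
          have e4 : m - 1 - (m - 1 - (i : ℕ)) < m := by omega
          rw [dif_pos e4] at e1 e2
          rw [e1] at e2
          have e5 : (⟨m - 1 - (m - 1 - (i : ℕ)), e4⟩ : Fin m) = i := Fin.ext e3
          rw [e5] at e2
          exact e2
        · have q1 : K ≤ (i : ℕ) := Nat.not_lt.1 hi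
          have q2 : K ≤ m - 1 - (i : ℕ) := Nat.not_lt.1 hi'
          rw [mid_zero94 (m := m) hs hx i q1 q2, mid_zero94 (m := m) hs' hx' i q1 q2]
    rw [← h1, ← hn] at hn'
    have h2 := mul_right_cancel₀ hP hn'
    exact_mod_cast h2.symm

theorem fewA_zero (K : ℕ) : Zero (FewA K) := zero_of94 _ (fewA_cn94 K)

end PW
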